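import Pool.Agent.H.MP_a35cac_co.T

namespace Pool.Agent.Results.MP_a35cac_co.Potts

open Finset H.MP_44674b_co.D

variable {X : Type} [Fintype X] [DecidableEq X] {d : ℕ}

/-- some ordering of the adjacency matrices and of the primitive idempotents gives `P = Q` -/
def FormallySelfDual (r : X → X → Fin (d + 1)) : Prop :=
  ∃ (σ : Equiv.Perm (Fin (d + 1))) (E : Fin (d + 1) → Matrix X X ℂ)
    (P : Matrix (Fin (d + 1)) (Fin (d + 1)) ℂ), σ 0 = 0 ∧ PrimIdem r E ∧
    (∀ i, adj r (σ i) = ∑ j, P j i • E j) ∧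
    ∀ i, E i = (Fintype.card X : ℂ)⁻¹ • ∑ j, P j i • adj r (σ j)

/-- symmetric, nonzero entries, type II and type III -/
def SpinModel (W : Matrix X X ℂ) : Prop :=
  (∀ a b, W a b = W b a) ∧ (∀ a b, W a b ≠ 0) ∧
    (∀ a b, ∑ x, W a x / W b x = if a = b then (Fintype.card X : ℂ) else 0) ∧
    ∃ D : ℂ, D ^ 2 = Fintype.card X ∧
      ∀ a b c, ∑ x, W a x * W b x / W c x = D * (W a b / (W a c * W b c))

/-- `M` lies in the Nomura algebra of `W` -/
def InNomura (W M : Matrix X X ℂ) : Prop :=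
  ∀ b c, ∃ θ : ℂ, ∀ x, ∑ y, M x y * (W y b / W y c) = θ * (W x b / W x c)

lemma sum3 (f : X → ℂ) (t : ℂ) (s : Finset X) (h : ∀ x, x ∉ s → f x = t) :
    ∑ x, f x = Fintype.card X * t + ∑ x ∈ s, (f x - t) := by
  rw [sum_subset (subset_univ s) fun x _ hx => by rw [h x hx, sub_self], sum_sub_distrib]
  simp

lemma potts (t : ℂ) (ht : t ≠ 0) (h : t ^ 8 + 1 + 2 * t ^ 4 = Fintype.card X * t ^ 4) :
    SpinModel (Matrix.of fun x y : X => if x = y then -(t ^ 3)⁻¹ else t) := by
  have hn : (Fintype.card X : ℂ) = (t ^ 8 + 1 + 2 * t ^ 4) / t ^ 4 := by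
    rw [h]; field_simp
  refine ⟨fun a b => by simp [eq_comm], fun a b => by simp only [Matrix.of_apply]; split_ifs <;> simp [ht],
    fun a b => ?_, -(t ^ 2 + (t ^ 2)⁻¹), by rw [hn]; field_simp; ring, fun a b c => ?_⟩
  · simp only [Matrix.of_apply]
    split_ifs with e
    · subst e
      rw [sum_congr rfl fun x _ => div_self (by split_ifs <;> simp [ht])]; simp
    · rw [sum3 _ 1 {a, b} fun x hx => by
        simp only [mem_insert, mem_singleton, not_or] at hx
        simp [Ne.symm hx.1, Ne.symm hx.2, ht], sum_pair e, hn]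
      simp only [if_true, e, Ne.symm e, if_false]
      field_simp; ring
  · simp only [Matrix.of_apply]
    rw [sum3 _ t {a, b, c} fun x hx => by
        simp only [mem_insert, mem_singleton, not_or] at hx
        simp [Ne.symm hx.1, Ne.symm hx.2.1, Ne.symm hx.2.2, ht], hn]
    by_cases e1 : a = b <;> by_cases e2 : a = c <;> by_cases e3 : b = c
    · subst e1 e2; simp; field_simp; ring
    · exact absurd (e1 ▸ e2) e3
    · exact absurd (e1.trans e3) e2
    · subst e1; simp [e2, Ne.symm e2]; field_simp; ring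
    · exact absurd (e2.trans e3.symm) e1
    · subst e2; simp [e1, Ne.symm e1, insert_comm]; field_simp; ring
    · subst e3; simp [e1, Ne.symm e1]; field_simp; ring
    · simp [e1, e2, e3, Ne.symm e1, Ne.symm e2, Ne.symm e3]; field_simp; ring

open H.MP_a35cac_co

theorem result :
    (∀ (X : Type) [Fintype X] [DecidableEq X] (d : ℕ) (r : X → X → Fin (d + 1))
      (p : Fin (d + 1) → Fin (d + 1) → Fin (d + 1) → ℕ), IsScheme r p →
      ∃ W ∈ BM r, SpinModel W) ∧
    ∃ (r : Fin 9 → Fin 9 → Fin (2 + 1)) (p : Fin (2 + 1) → Fin (2 + 1) → Fin (2 + 1) → ℕ),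
      IsScheme r p ∧ FormallySelfDual r ∧ ExactlyTriplyRegular r ∧
      ∀ W ∈ BM r, SpinModel W →
        (∃ a b : ℂ, ∀ x y, W x y = if x = y then a else b) ∧ ∃ M ∈ BM r, ¬ InNomura W M := by
  refine ⟨fun X _ _ d r p hs => ?_, rr, pp, sch, ?_,
    etr rr NN CC 1 one_ne_zero h1 fun p x y z => h2 p _ (h0 x y z), fun W hW hs => ?_⟩
  · obtain ⟨w, hw⟩ := IsAlgClosed.exists_pow_nat_eq (((Fintype.card X : ℂ) - 2) ^ 2 - 4) two_pos
    obtain ⟨t, ht⟩ := IsAlgClosed.exists_pow_nat_eq (((Fintype.card X : ℂ) - 2 + w) / 2) four_pos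
    have h : t ^ 8 + 1 + 2 * t ^ 4 = Fintype.card X * t ^ 4 := by
      rw [show t ^ 8 = (t ^ 4) ^ 2 by ring, ht]; linear_combination (1 / 4) * hw
    have t0 : t ≠ 0 := by rintro rfl; simp at h
    refine ⟨_, ?_, potts t t0 h⟩
    convert of_mem r fun i => if i = 0 then -(t ^ 3)⁻¹ else t using 4
    simp [hs.diag]
  · refine ⟨1, _, Matrix.of fun i j => (QQ i j : ℂ), rfl, prim rr QQ (by decide) (by decide)
      (by decide) (by simpa using qa) (by simpa using qb), fun i => ?_, fun i => ?_⟩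
    · ext x y
      have : ∑ j, (QQ j i : ℂ) * QQ (rr x y) j = if rr x y = i then 9 else 0 := by
        exact_mod_cast qc i (rr x y)
      simp only [adj, Matrix.of_apply, Matrix.sum_apply, Matrix.smul_apply, smul_eq_mul,
        mul_left_comm (QQ _ _ : ℂ), ← mul_sum, this, Equiv.Perm.one_apply]
      split_ifs <;> simp
    · ext x y; simp [adj, Matrix.sum_apply]
  · obtain ⟨a, ha⟩ := expand hW
    obtain ⟨-, n0, t2, D, -, t3⟩ := hs
    have a0 : a 0 ≠ 0 := by simpa [ha, rr] using n0 0 0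
    have a1 : a 1 ≠ 0 := by simpa [ha, rr] using n0 0 1
    have a2 : a 2 ≠ 0 := by simpa [ha, rr] using n0 0 3
    have e1 := t2 0 1
    have e2 := t3 0 1 2
    have e3 := t3 0 3 1
    simp [ha, rr, Fin.sum_univ_succ, a0, a1, a2] at e1 e2 e3
    field_simp at e1 e2 e3
    have k : a 1 = a 2 := by
      have : a 0 * a 1 * (a 1 - a 2) = 0 := by
        linear_combination (-1 / 9) * (e2 - e3) + (1 / 9) * (a 1 - a 2) * e1
      simpa [a0, a1, sub_eq_zero] using this
    refine ⟨⟨a 0, a 1, fun x y => ?_⟩, _, adj_mem rr 1, fun h => ?_⟩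
    · rw [ha, rr]; split_ifs <;> simp [k]
    · obtain ⟨θ, h⟩ := h 0 3
      have f1 := h 6
      have f2 := h 1
      simp [ha, rr, adj, Fin.sum_univ_succ, ← k, a1] at f1 f2
      have g : a 0 = a 1 := (div_eq_one_iff_eq a1).1 (by linear_combination f2 - f1)
      rw [g] at e1
      exact a1 (pow_eq_zero_iff (two_ne_zero)|>.1 (by linear_combination (1 / 9) * e1))

end Pool.Agent.Results.MP_a35cac_co.Potts
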